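import Pool.Agent.Q294.Bd5

set_option autoImplicit false

/-!
# The infinite half-plane self-avoiding walk on the hexagonal grid rarely returns to the boundary

The infinite half-plane self-avoiding walk `μ` on the hexagonal grid of edge length `‖u‖`, with an
edge at the start perpendicular to the boundary, is transient with respect to the boundary with a
polynomial rate: the expected number of its vertices at height at most `‖u‖` which it visits after
it has reached distance `R` is at most `14000 (R / ‖u‖)^(-0.115)`, and the expected number of those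
which it visits after time `n` is at most `18000 n^(-0.0575)`.

Idea: an initial piece of the walk which ends at the boundary has, by the ratio limit theorem,
probability at most its critical weight. So the expected number of late visits is at most the
critical mass of the half-plane arcs of large extent, which is controlled by the masses of the
walks which cross strips.
-/

namespace Pool.Agent.Results.MP_df1d0b_pr.BoundaryVisits

open Filter Topology MeasureTheory

/-- `e^{iπ/3}` -/
noncomputable def Om : ℂ := ⟨1 / 2, Real.sqrt 3 / 2⟩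

/-- the hexagonal grid with edge length one and a vertex at `0` (the triangular grid without the
centres of the hexagons) -/
def HexG : Set ℂ := {z | ∃ a b : ℤ, (a - b) % 3 ≠ 2 ∧ z = a + b * Om}

/-- the grid `Λ` multiplied by `u` -/
def rot (u : ℂ) (Λ : Set ℂ) : Set ℂ := {z | ∃ w ∈ Λ, z = u * w}

/-- self-avoiding walks with `n` steps in the closed upper half-plane, starting at `0`, with steps of
length `r` between points of `Λ`; a walk is continued by its last point -/
def PW (Λ : Set ℂ) (r : ℝ) (n : ℕ) : Set (ℕ → ℂ) :=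
  {γ | γ 0 = 0 ∧ (∀ i, γ i ∈ Λ ∧ 0 ≤ (γ i).im) ∧ (∀ i < n, ‖γ (i + 1) - γ i‖ = r) ∧
    (∀ i ≤ n, ∀ j ≤ n, γ i = γ j → i = j) ∧ ∀ i, n ≤ i → γ i = γ n}

/-- For the hexagonal grid of edge length `‖u‖` with a vertex at `0` and an edge at `0`
perpendicular to the real line, the infinite half-plane self-avoiding walk (the weak limit `μ` of the
uniform measures on `n`-step half-plane walks) satisfies:
(1) for every `R > 0`, the expected number of times `i` at which the walk is at height at most
`‖u‖` and has already been at distance at least `R` from `0` is at most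
`14000 (R / ‖u‖)^(-23/200)`;
(2) for every `n ≥ 1`, the expected number of times `i ≥ n` at which the walk is at height at most
`‖u‖` is at most `18000 n^(-23/400)`. -/
theorem result (u : ℂ) (hu : u ≠ 0) (hv : ∃ z ∈ rot u HexG, ‖z‖ = ‖u‖ ∧ z.re = 0) :
    ∃ μ : Measure (ℕ → ℂ), IsProbabilityMeasure μ ∧
      (∀ᵐ γ ∂μ, γ 0 = 0 ∧ (∀ i, γ i ∈ rot u HexG ∧ 0 ≤ (γ i).im) ∧
        (∀ i, ‖γ (i + 1) - γ i‖ = ‖u‖) ∧ Function.Injective γ) ∧
      (∀ F : BoundedContinuousFunction (ℕ → ℂ) ℝ,
        Tendsto (fun n => (∑ᶠ γ ∈ PW (rot u HexG) ‖u‖ n, F γ) /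
          ((PW (rot u HexG) ‖u‖ n).ncard : ℝ)) atTop (𝓝 (∫ γ, F γ ∂μ))) ∧
      (∀ R : ℝ, 0 < R → ∑' i : ℕ, μ {γ | (γ i).im ≤ ‖u‖ ∧ ∃ k ≤ i, R ≤ ‖γ k‖} ≤
        ENNReal.ofReal (14000 * (R / ‖u‖) ^ (-(23 / 200) : ℝ))) ∧
      ∀ n : ℕ, 1 ≤ n → ∑' i : ℕ, μ {γ | (γ (n + i)).im ≤ ‖u‖} ≤
        ENNReal.ofReal (18000 * (n : ℝ) ^ (-(23 / 400) : ℝ)) := by
  obtain ⟨c0, hc, E, hE⟩ := Pool.Agent.W818.TD.emb_vert u hu hv
  obtain ⟨μ, h1, h2, h3, h4⟩ :=
    Pool.Agent.H976R3.HPL.concl_of_emb E Pool.Agent.H976R3.HPL.facts_hexA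
  have := h1
  have hr : 0 < ‖u‖ := norm_pos_iff.2 hu
  have hm : ∀ R : ℝ, 0 < R → ∑' i : ℕ, μ {γ | (γ i).im ≤ ‖u‖ ∧ ∃ k ≤ i, R ≤ ‖γ k‖} ≤
      ENNReal.ofReal (14000 * (R / ‖u‖) ^ (-(23 / 200) : ℝ)) :=
    fun R hR => Q294.Bd.main hc hr E hE μ h2 h3 hR
  exact ⟨μ, h1, h2, h4, hm, fun n hn => Q294.Bd.main_time hc hr E hE μ h2 hm hn⟩

end Pool.Agent.Results.MP_df1d0b_pr.BoundaryVisits
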