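import Pool.Agent.Q291.DC.Vis

set_option autoImplicit false

/-!
# Contacts of the planar self-avoiding walk with the boundary of a domain

Uniform `n`-step self-avoiding walks on `ℤ²` from the origin which stay in a domain `D` (an
arbitrary set of lattice points).  A contact is a step which can be pushed out of `D`: for a unit
vector `u` both ends plus `u` are outside `D`.

The number of contacts is at most a constant times `(log n)^2` plus the cost of the confinement,
that is minus the logarithm of the probability that the walk of the plane stays in `D`, with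
exponential tails beyond.  In particular the half-plane walk visits the boundary line at most
`K ((log n)^2 + x)` times with probability at least `1 - exp (-x)`; the walk of the plane visits the
boundary of the smallest rectangle which contains it at most `K ((log n)^2 + x)` times; and in the
strip of the heights `0, ..., R` the number of contacts is at most
`K ((log n)^2 + n (log μ - log κ_R) + x)`, with `κ_R` the connective constant of the strip.
-/

namespace Pool.Agent.Results.MP_df1d0b_pr.DomainContacts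

open Filter Topology

/-- self-avoiding walks of `n` steps from the origin -/
def IsSAW (n : ℕ) (w : Fin (n + 1) → (Fin 2 → ℤ)) : Prop :=
  w 0 = 0 ∧ (∀ i : Fin n, ∑ k, |w i.succ k - w i.castSucc k| = 1) ∧ Function.Injective w

/-- the number of walks of `n` steps which stay in `D` and have the property `P` -/
noncomputable def walksIn (D : Set (Fin 2 → ℤ)) (n : ℕ)
    (P : (Fin (n + 1) → (Fin 2 → ℤ)) → Prop) : ℕ :=
  Nat.card {w : Fin (n + 1) → (Fin 2 → ℤ) // IsSAW n w ∧ (∀ i, w i ∈ D) ∧ P w}

/-- the number of walks of `n` steps in the plane -/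
noncomputable def walks (n : ℕ) : ℕ := Nat.card {w : Fin (n + 1) → (Fin 2 → ℤ) // IsSAW n w}

/-- the number of contacts: steps which can be pushed out of the domain -/
noncomputable def contacts (D : Set (Fin 2 → ℤ)) {n : ℕ} (w : Fin (n + 1) → (Fin 2 → ℤ)) : ℕ :=
  Nat.card {i : Fin n // ∃ u : Fin 2 → ℤ, ∑ k, |u k| = 1 ∧ w i.castSucc + u ∉ D ∧ w i.succ + u ∉ D}

/-- the closed half-plane -/
def halfPlane : Set (Fin 2 → ℤ) := {v | 0 ≤ v 0}

/-- the number of visits of the boundary line of the half-plane -/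
noncomputable def lineVisits {n : ℕ} (w : Fin (n + 1) → (Fin 2 → ℤ)) : ℕ :=
  Nat.card {i : Fin (n + 1) // w i 0 = 0}

/-- the number of visits of the boundary of the smallest rectangle which contains the walk -/
noncomputable def boxVisits {n : ℕ} (w : Fin (n + 1) → (Fin 2 → ℤ)) : ℕ :=
  Nat.card {i : Fin (n + 1) // ∃ k : Fin 2, (∀ j, w j k ≤ w i k) ∨ ∀ j, w i k ≤ w j k}

/-- the walk `p.2` started at height `p.1` stays in the strip of the heights `0, ..., R` -/
def InStrip (R n : ℕ) (p : ℤ × (Fin (n + 1) → (Fin 2 → ℤ))) : Prop :=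
  IsSAW n p.2 ∧ ∀ i, 0 ≤ p.1 + p.2 i 1 ∧ p.1 + p.2 i 1 ≤ R

/-- the number of walks of `n` steps in the strip, up to horizontal translation, with a property -/
noncomputable def stripWalks (R n : ℕ) (P : ℤ × (Fin (n + 1) → (Fin 2 → ℤ)) → Prop) : ℕ :=
  Nat.card {p : ℤ × (Fin (n + 1) → (Fin 2 → ℤ)) // InStrip R n p ∧ P p}

/-- the strip seen from a point at height `h` -/
def strip (R : ℕ) (h : ℤ) : Set (Fin 2 → ℤ) := {v | 0 ≤ h + v 1 ∧ h + v 1 ≤ R}

theorem result :
    ∃ (mu : ℝ) (kap : ℕ → ℝ) (K : ℝ), 0 < mu ∧ (∀ R, 0 < kap R) ∧ 0 < K ∧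
      -- the connective constants
      Tendsto (fun n : ℕ => (walks n : ℝ) ^ ((1 : ℝ) / n)) atTop (𝓝 mu) ∧
      (∀ R, Tendsto (fun n : ℕ => (stripWalks R n (fun _ => True) : ℝ) ^ ((1 : ℝ) / n)) atTop
        (𝓝 (kap R))) ∧
      -- (1) arbitrary domains: the cost of the confinement
      (∀ n : ℕ, 2 ≤ n → ∀ (D : Set (Fin 2 → ℤ)) (x : ℝ), 0 ≤ x →
        (walksIn D n (fun w => K * (Real.log n ^ 2 + x +
          Real.log (walks n / walksIn D n (fun _ => True))) ≤ contacts D w) : ℝ) ≤
          Real.exp (-x) * walksIn D n (fun _ => True)) ∧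
      -- (2) the half-plane
      (∀ n : ℕ, 2 ≤ n → ∀ x : ℝ, 0 ≤ x →
        (walksIn halfPlane n (fun w => K * (Real.log n ^ 2 + x) ≤ lineVisits w) : ℝ) ≤
          Real.exp (-x) * walksIn halfPlane n (fun _ => True)) ∧
      -- (3) the bounding box of the walk of the plane
      (∀ n : ℕ, 2 ≤ n → ∀ x : ℝ, 0 ≤ x →
        (walksIn Set.univ n (fun w => K * (Real.log n ^ 2 + x) ≤ boxVisits w) : ℝ) ≤
          Real.exp (-x) * walks n) ∧
      -- (4) strips
      (∀ n : ℕ, 2 ≤ n → ∀ R : ℕ, R ≤ n → ∀ x : ℝ, 0 ≤ x →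
        (stripWalks R n (fun p => K * (Real.log n ^ 2 + n * (Real.log mu - Real.log (kap R)) + x) ≤
          contacts (strip R p.1) p.2) : ℝ) ≤
          Real.exp (-x) * stripWalks R n (fun _ => True)) := by
  obtain ⟨K₁, hK₁, h1⟩ := Pool.Agent.Q291.DC.cost
  obtain ⟨K₂, hK₂, h2⟩ := Pool.Agent.Q291.DC.half_vis
  obtain ⟨K₃, hK₃, h3⟩ := Pool.Agent.Q291.DC.box_vis
  obtain ⟨K₄, hK₄, h4⟩ := Pool.Agent.Q291.DC.strip
  have hcR : ∀ R n : ℕ, stripWalks R n (fun _ => True) = Pool.Agent.Q291.SW.cR R n := by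
    intro R n
    unfold stripWalks Pool.Agent.Q291.SW.cR
    congr 1
    simp only [and_true]
    rfl
  have hsq : ∀ n : ℕ, 0 ≤ Real.log n ^ 2 := fun n => by positivity
  refine ⟨H981.mu, fun R => Real.exp (Pool.Agent.Q291.SW.lk R), K₁ + K₂ + K₃ + K₄, H981.mu_pos,
    fun R => Real.exp_pos _, by positivity, ?_, ?_, ?_, ?_, ?_, ?_⟩
  · have h := (Real.continuous_exp.tendsto _).comp Pool.Agent.Q291.SW.tendsto_cS
    rw [Real.exp_log H981.mu_pos] at h
    refine h.congr (fun n => ?_)
    have hc := Pool.Agent.H122R3.MS.cS_pos n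
    have e : (walks n : ℝ) = Pool.Agent.H122R3.MS.cS n := rfl
    rw [e, Real.rpow_def_of_pos hc]
    simp only [Function.comp]
    congr 1
    ring
  · intro R
    simp only [hcR]
    exact Pool.Agent.Q291.SW.tendsto_root R
  · intro n hn D x hx
    refine le_trans ?_ (h1 n hn D x hx)
    norm_cast
    refine Pool.Agent.Q291.DC.NW_mono fun w _ hD hP => ⟨hD, le_trans ?_ hP⟩
    have hl : 0 ≤ Real.log n ^ 2 + x + Real.log (Pool.Agent.H122R3.MS.cS n /
        Pool.Agent.Q291.DC.NA D n) := by
      have hNA := Pool.Agent.Q291.DC.NA_le_cS D n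
      have : 0 ≤ Real.log ((Pool.Agent.H122R3.MS.cS n : ℝ) / Pool.Agent.Q291.DC.NA D n) := by
        rcases Nat.eq_zero_or_pos (Pool.Agent.Q291.DC.NA D n) with h0 | h0
        · rw [h0]; simp
        · apply Real.log_nonneg
          rw [le_div_iff₀ (by exact_mod_cast h0), one_mul]
          exact_mod_cast hNA
      have := hsq n
      linarith
    have e : Real.log n ^ 2 + x + Real.log ((Pool.Agent.H122R3.MS.cS n : ℝ) /
        Pool.Agent.Q291.DC.NA D n) = Real.log n ^ 2 + x +
        Real.log ((walks n : ℝ) / walksIn D n (fun _ => True)) := rfl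
    rw [e] at hl ⊢
    exact mul_le_mul_of_nonneg_right (by linarith) hl
  · intro n hn x hx
    refine le_trans ?_ (h2 n hn x hx)
    norm_cast
    refine Pool.Agent.Q291.DC.NW_mono fun w _ hD hP => ⟨hD, le_trans ?_ hP⟩
    have := hsq n
    exact mul_le_mul_of_nonneg_right (by linarith) (by linarith)
  · intro n hn x hx
    refine le_trans ?_ (h3 n hn x hx)
    norm_cast
    refine Pool.Agent.Q291.DC.NW_mono fun w _ hD hP => ⟨hD, le_trans ?_ hP⟩
    have := hsq n
    exact mul_le_mul_of_nonneg_right (by linarith) (by linarith)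
  · intro n hn R hR x hx
    have h5 := h4 n hn R hR x hx
    rw [hcR, Real.log_exp]
    refine le_trans ?_ h5
    norm_cast
    unfold stripWalks
    have hfin : Finite {p : ℤ × (Fin (n + 1) → (Fin 2 → ℤ)) //
        Pool.Agent.Q291.SW.InStrip R n p ∧ K₄ * (Real.log n ^ 2 +
          n * (Real.log H981.mu - Pool.Agent.Q291.SW.lk R) + x) ≤
            Pool.Agent.Q291.DC.ct (Pool.Agent.Q291.DC.Sd R p.1) p.2} := by
      have := Pool.Agent.Q291.SW.fin_strip R n
      exact Finite.of_injective (fun p => (⟨p.1, p.2.1⟩ : {p : ℤ × (Fin (n + 1) → (Fin 2 → ℤ)) //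
        Pool.Agent.Q291.SW.InStrip R n p})) (fun a b h => Subtype.ext (congrArg (·.1) h))
    refine Nat.card_le_card_of_injective (fun p => (⟨p.1, p.2.1, ?_⟩ :
      {p : ℤ × (Fin (n + 1) → (Fin 2 → ℤ)) //
        Pool.Agent.Q291.SW.InStrip R n p ∧ K₄ * (Real.log n ^ 2 +
          n * (Real.log H981.mu - Pool.Agent.Q291.SW.lk R) + x) ≤
            Pool.Agent.Q291.DC.ct (Pool.Agent.Q291.DC.Sd R p.1) p.2})) ?_
    · refine le_trans ?_ p.2.2
      have hg : 0 ≤ Real.log H981.mu - Pool.Agent.Q291.SW.lk R := Pool.Agent.Q291.SW.ff_nonneg R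
      have h6 : 0 ≤ (n:ℝ) * (Real.log H981.mu - Pool.Agent.Q291.SW.lk R) := by positivity
      have := hsq n
      exact mul_le_mul_of_nonneg_right (by linarith) (by linarith)
    · intro a b hab
      simp only [Subtype.mk.injEq] at hab
      exact Subtype.ext hab

end Pool.Agent.Results.MP_df1d0b_pr.DomainContacts
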