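import Pool.Agent.Q38.RL.Fun

/-!
Self-avoiding walks in arbitrary domains of the triangular and of the hexagonal grid: the ratios of
the numbers of walks with `n + s` and with `n` steps, and the comparison of the laws of the
beginning and of the end point, with rates. In particular half-plane walks; bridges.
-/

set_option autoImplicit false

namespace Pool.Agent.Results.MP_df1d0b_pr.LengthsInDomains

/-- The two grids. -/
inductive Grid
  | triangular
  | hexagonal

/-- Adjacency. Triangular grid: `(x, y)` is the point `x + y e^{iπ/3}`. Hexagonal grid: brick-wall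
coordinates, as in the frozen statement of `MP_b440f6_pr`. -/
def Nbr : Grid → ℤ × ℤ → ℤ × ℤ → Prop
  | .triangular => fun p q =>
      q - p ∈ ({(1, 0), (-1, 0), (0, 1), (0, -1), (1, -1), (-1, 1)} : Set (ℤ × ℤ))
  | .hexagonal => fun p q =>
      q - p = (1, 0) ∨ q - p = (-1, 0) ∨ (q - p = (0, 1) ∧ Even (p.1 + p.2)) ∨
        (q - p = (0, -1) ∧ Even (q.1 + q.2))

/-- The step: lengths are compared modulo `1` and modulo `2`. -/
def s : Grid → ℕ
  | .triangular => 1
  | .hexagonal => 2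

/-- The `n`-step self-avoiding walks from the origin in the domain `D`. -/
def walks (G : Grid) (D : Set (ℤ × ℤ)) (n : ℕ) : Set (Fin (n + 1) → ℤ × ℤ) :=
  {ω | ω 0 = 0 ∧ Function.Injective ω ∧ (∀ i : Fin n, Nbr G (ω i.castSucc) (ω i.succ)) ∧
    ∀ i, ω i ∈ D}

/-- The number of `n`-step self-avoiding walks from the origin in the domain `D`. -/
noncomputable def c (G : Grid) (D : Set (ℤ × ℤ)) (n : ℕ) : ℝ := ((walks G D n).ncard : ℝ)

/-- The connective constant. -/
noncomputable def μ (G : Grid) : ℝ :=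
  ⨅ n : {n : ℕ // 1 ≤ n}, (c G Set.univ n.1 ^ ((1 : ℝ) / (n.1 : ℝ)))

/-- The `n`-step walks in `D` for which the first `m` steps and the end point are in `E`; for
`m ≤ n`. -/
def event (G : Grid) (D : Set (ℤ × ℤ)) (n m : ℕ)
    (E : Set ((Fin (m + 1) → ℤ × ℤ) × (ℤ × ℤ))) : Set (Fin (n + 1) → ℤ × ℤ) :=
  {ω ∈ walks G D n | (fun i : Fin (m + 1) => ω (Fin.ofNat (n + 1) i), ω (Fin.last n)) ∈ E}

/-- Their number. -/
noncomputable def N (G : Grid) (D : Set (ℤ × ℤ)) (n m : ℕ)
    (E : Set ((Fin (m + 1) → ℤ × ℤ) × (ℤ × ℤ))) : ℝ := ((event G D n m E).ncard : ℝ)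

/-- The probability, under the uniform measure on the `n`-step walks in `D`, that the first `m`
steps and the end point are in `E`; for `m ≤ n`. -/
noncomputable def P (G : Grid) (D : Set (ℤ × ℤ)) (n m : ℕ)
    (E : Set ((Fin (m + 1) → ℤ × ℤ) × (ℤ × ℤ))) : ℝ := N G D n m E / c G D n

/-- The rate: `(log n + √(-log p)) / √n`. -/
noncomputable def rate (p : ℝ) (n : ℕ) : ℝ := (Real.log n + √(-Real.log p)) / √(n : ℝ)

/-- The distance from a lattice line through the origin, up to a factor. In the hexagonal grid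
the line contains an edge. -/
def height : Grid → ℤ × ℤ → ℤ
  | .triangular => fun p => p.1 + p.2
  | .hexagonal => fun p => p.1

/-- The half-plane. -/
def half (G : Grid) : Set (ℤ × ℤ) := {p | 0 ≤ height G p}

/-- The bridges with `n` steps. -/
def bridges (G : Grid) (n : ℕ) : Set (Fin (n + 1) → ℤ × ℤ) :=
  {ω ∈ walks G Set.univ n | ∀ i, (i ≠ 0 → 0 < height G (ω i)) ∧
    height G (ω i) ≤ height G (ω (Fin.last n))}

/-- The number of bridges with `n` steps. -/
noncomputable def b (G : Grid) (n : ℕ) : ℝ := ((bridges G n).ncard : ℝ)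

open H982 TH966.AK in
theorem low_tri : ∃ K : ℝ, 0 ≤ K ∧ ∀ n : ℕ, 2 ≤ n →
    (μ .triangular) ^ n * Real.exp (-(K * Real.log n ^ 2)) ≤
      ((Q38.RL.wB (Nbr .triangular) (height .triangular) n).ncard : ℝ) := by
  obtain ⟨K, hK, h⟩ := Q38.RL.W.bri_lower (L := H982P.triL) H982P.coord_tri
  have hmu : μ .triangular = H982.mu (L := H982P.triL) := by
    rw [← H982.mu_eq_iInf (L := H982P.triL) H982P.coord_tri]
    unfold μ c
    congr 1
    funext n
    congr 3
    ext f
    unfold walks H982.walks Nbr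
    simp
  refine ⟨K, hK, fun n hn => ?_⟩
  rw [hmu]
  refine (h n hn).trans (le_of_eq ?_)
  congr 2
  ext f
  unfold Q38.RL.W.bri Q38.RL.wB Q38.RL.wD H982.walks Nbr height
  simp

open H982 TH966.AK in
theorem low_hex : ∃ K : ℝ, 0 ≤ K ∧ ∀ n : ℕ, 2 ≤ n →
    (μ .hexagonal) ^ n * Real.exp (-(K * Real.log n ^ 2)) ≤
      ((Q38.RL.wB (Nbr .hexagonal) (height .hexagonal) n).ncard : ℝ) := by
  obtain ⟨K, hK, h⟩ := Q38.RL.W.bri_lower (L := H982P.hexL) H982P.coord_hex
  have hmu : μ .hexagonal = H982.mu (L := H982P.hexL) := by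
    rw [← H982.mu_eq_iInf (L := H982P.hexL) H982P.coord_hex]
    unfold μ c
    congr 1
    funext n
    congr 3
    ext f
    unfold walks H982.walks Nbr
    simp
  refine ⟨K, hK, fun n hn => ?_⟩
  rw [hmu]
  refine (h n hn).trans (le_of_eq ?_)
  congr 2
  ext f
  unfold Q38.RL.W.bri Q38.RL.wB Q38.RL.wD H982.walks Nbr height
  simp

open TH966.AK in
theorem growth_tri : ∃ K : ℝ, Growth Tri.rule (μ .triangular) K :=
  (tri_growth (fun n => Set.ncard {f : Fin (n + 1) → ℤ × ℤ | f 0 = 0 ∧ Function.Injective f ∧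
    ∀ i : Fin n, AdjT (f i.castSucc) (f i.succ)}) (fun _ => rfl) (μ .triangular) (by
      unfold μ c
      congr 1
      funext n
      congr 3
      ext f
      unfold walks Nbr AdjT
      simp)).2

open TH966.AK in
theorem growth_hex : ∃ K : ℝ, Growth Hex.rule (μ .hexagonal) K := by
  have h1 := hex_mu (fun n => Set.ncard {f : Fin (n + 1) → ℤ × ℤ | f 0 = 0 ∧
    Function.Injective f ∧ ∀ i : Fin n, AdjH (f i.castSucc) (f i.succ)}) (fun _ => rfl)
  have h2 : μ .hexagonal = Real.sqrt (2 + Real.sqrt 2) := by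
    rw [← h1]
    unfold μ c
    congr 1
    funext n
    congr 3
    ext f
    unfold walks Nbr AdjH
    simp
  rw [h2]
  exact (hex_growth (fun n => Set.ncard {f : Fin (n + 1) → ℤ × ℤ | f 0 = 0 ∧
    Function.Injective f ∧ ∀ i : Fin n, AdjH (f i.castSucc) (f i.succ)}) (fun _ => rfl)).2

/-- **Theorem.** Let `G` be the triangular grid (`s = 1`) or the hexagonal grid (`s = 2`). There are
constants `C`, `K` and `θ < 1` with the following properties. Let `D` be any set of vertices, `E`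
any set of pairs (path with `m` steps, vertex), and `N_n` the number of `n`-step self-avoiding walks
from the origin in `D` with (first `m` steps, end point) in `E`.
(1) If `n ≥ C`, `m ≤ n / 2` and `N_(n+s) ≥ (θ μ)^(n+s)` then
`N_(n+s)^2 ≤ N_n N_(n+2s) (1 + C / n)`.
(2) Let `n ≥ 2`, `m ≤ n / 8`, `N_n > 0` and `r = (log n + √(-log (N_n / c_n))) / √n`. If `C r ≤ 1`
then `|N_(n+s) / (μ^s N_n) - 1| ≤ C r`.
(3) Let `n ≥ 2` and let `p = c_n(D) / c_n > 0` be the probability that the `n`-step walk of the plane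
stays in `D`, and `r = (log n + √(-log p)) / √n`. Then `|c_(n+s)(D) / (μ^s c_n(D)) - 1| ≤ C r`, and for
every `m ≤ n / 8` the laws of (the first `m` steps, the end point) for the uniform `n`-step and
`(n+s)`-step walks in `D` differ by at most `C r` in total variation.
(4) For a half-plane bounded by a lattice line (in the hexagonal grid: which contains edges), the
`n`-step walk of the plane stays in the half-plane with probability at least `exp (-K (log n)^2)`;
hence for the half-plane walks both bounds of (3) hold with `r = log n / √n`.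
(5) The numbers `b_n` of bridges satisfy `|b_(n+s) / (μ^s b_n) - 1| ≤ C log n / √n`. -/
theorem result (G : Grid) : ∃ C K θ : ℝ, 0 < θ ∧ θ < 1 ∧
    (∀ n m : ℕ, C ≤ n → 2 * m ≤ n → ∀ (D : Set (ℤ × ℤ))
      (E : Set ((Fin (m + 1) → ℤ × ℤ) × (ℤ × ℤ))),
      (θ * μ G) ^ (n + s G) ≤ N G D (n + s G) m E →
      N G D (n + s G) m E ^ 2 ≤ N G D n m E * N G D (n + s G + s G) m E * (1 + C / n)) ∧
    (∀ n m : ℕ, 2 ≤ n → 8 * m ≤ n → ∀ (D : Set (ℤ × ℤ))
      (E : Set ((Fin (m + 1) → ℤ × ℤ) × (ℤ × ℤ))), 0 < N G D n m E →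
      C * rate (N G D n m E / c G Set.univ n) n ≤ 1 →
      |N G D (n + s G) m E / (μ G ^ s G * N G D n m E) - 1| ≤
        C * rate (N G D n m E / c G Set.univ n) n) ∧
    (∀ n : ℕ, 2 ≤ n → ∀ D : Set (ℤ × ℤ), 0 < c G D n →
      |c G D (n + s G) / (μ G ^ s G * c G D n) - 1| ≤ C * rate (c G D n / c G Set.univ n) n ∧
      ∀ m : ℕ, 8 * m ≤ n → ∀ E : Set ((Fin (m + 1) → ℤ × ℤ) × (ℤ × ℤ)),
        |P G D (n + s G) m E - P G D n m E| ≤ C * rate (c G D n / c G Set.univ n) n) ∧
    (∀ n : ℕ, 2 ≤ n → Real.exp (-(K * Real.log n ^ 2)) ≤ c G (half G) n / c G Set.univ n) ∧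
    (∀ n : ℕ, 2 ≤ n →
      |c G (half G) (n + s G) / (μ G ^ s G * c G (half G) n) - 1| ≤
        C * (Real.log n / √(n : ℝ)) ∧
      (∀ m : ℕ, 8 * m ≤ n → ∀ E : Set ((Fin (m + 1) → ℤ × ℤ) × (ℤ × ℤ)),
        |P G (half G) (n + s G) m E - P G (half G) n m E| ≤ C * (Real.log n / √(n : ℝ))) ∧
      |b G (n + s G) / (μ G ^ s G * b G n) - 1| ≤ C * (Real.log n / √(n : ℝ))) := by
  cases G with
  | triangular =>
    obtain ⟨K, hK⟩ := growth_tri
    exact Q38.RL.final_eq (A' := Nbr .triangular) (s := 1) TH966.AK.adjT_eq rfl hK Q38.RL.hom_tri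
      (by decide) (height .triangular) rfl low_tri
  | hexagonal =>
    obtain ⟨K, hK⟩ := growth_hex
    exact Q38.RL.final_eq (A' := Nbr .hexagonal) (s := 2) rfl rfl hK Q38.RL.hom_hex
      (by decide) (height .hexagonal) rfl low_hex

end Pool.Agent.Results.MP_df1d0b_pr.LengthsInDomains
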