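import Pool.Agent.Q291.HB.Inf

set_option autoImplicit false

/-!
# The number of visits of the boundary by the infinite half-plane self-avoiding walk

On the hexagonal grid of edge length `‖u‖`, with an edge at the start perpendicular to the boundary,
the total number of visits of the boundary by the infinite half-plane self-avoiding walk has an
exponential tail.

Idea: the initial piece up to the `m`-th visit is an arc with `m` visits, and has probability at
most its critical weight. In an arc the runs along every second boundary hexagon can be replaced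
independently by the complementary arcs of the hexagons; the new arc lies in the half-plane which is
larger by one row, so that the critical mass of the arcs with `m` visits is exponentially small.
-/

namespace Pool.Agent.Results.MP_df1d0b_pr.NumberOfBoundaryVisits

open Filter Topology MeasureTheory

/-- `e^{iπ/3}` -/
noncomputable def Om : ℂ := ⟨1 / 2, Real.sqrt 3 / 2⟩

/-- the hexagonal grid with edge length one and a vertex at `0` (the triangular grid without the
centres of the hexagons) -/
def HexG : Set ℂ := {z | ∃ a b : ℤ, (a - b) % 3 ≠ 2 ∧ z = a + b * Om}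

/-- the grid `Λ` multiplied by `u` -/
def rot (u : ℂ) (Λ : Set ℂ) : Set ℂ := {z | ∃ w ∈ Λ, z = u * w}

/-- self-avoiding walks with `n` steps in the closed upper half-plane, starting at `0`, with steps of
length `r` between points of `Λ`; a walk is continued by its last point -/
def PW (Λ : Set ℂ) (r : ℝ) (n : ℕ) : Set (ℕ → ℂ) :=
  {γ | γ 0 = 0 ∧ (∀ i, γ i ∈ Λ ∧ 0 ≤ (γ i).im) ∧ (∀ i < n, ‖γ (i + 1) - γ i‖ = r) ∧
    (∀ i ≤ n, ∀ j ≤ n, γ i = γ j → i = j) ∧ ∀ i, n ≤ i → γ i = γ n}

/-- For the hexagonal grid of edge length `‖u‖` with a vertex at `0` and an edge at `0`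
perpendicular to the real line, the infinite half-plane self-avoiding walk (the weak limit `μ` of the
uniform measures on `n`-step half-plane walks) is at least `m` times at height at most `‖u‖` with
probability at most `177 (74/75)^m`, for every `m`. -/
theorem result (u : ℂ) (hu : u ≠ 0) (hv : ∃ z ∈ rot u HexG, ‖z‖ = ‖u‖ ∧ z.re = 0) :
    ∃ μ : Measure (ℕ → ℂ), IsProbabilityMeasure μ ∧
      (∀ᵐ γ ∂μ, γ 0 = 0 ∧ (∀ i, γ i ∈ rot u HexG ∧ 0 ≤ (γ i).im) ∧
        (∀ i, ‖γ (i + 1) - γ i‖ = ‖u‖) ∧ Function.Injective γ) ∧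
      (∀ F : BoundedContinuousFunction (ℕ → ℂ) ℝ,
        Tendsto (fun n => (∑ᶠ γ ∈ PW (rot u HexG) ‖u‖ n, F γ) /
          ((PW (rot u HexG) ‖u‖ n).ncard : ℝ)) atTop (𝓝 (∫ γ, F γ ∂μ))) ∧
      ∀ m : ℕ, μ {γ | (m : ℕ∞) ≤ {i : ℕ | (γ i).im ≤ ‖u‖}.encard} ≤
        ENNReal.ofReal (177 * (74 / 75) ^ m) := by
  obtain ⟨c0, hc, E, hE⟩ := Pool.Agent.W818.TD.emb_vert u hu hv
  obtain ⟨μ, h1, h2, h3, h4⟩ :=
    Pool.Agent.H976R3.HPL.concl_of_emb E Pool.Agent.H976R3.HPL.facts_hexA
  have := h1
  have hr : 0 < ‖u‖ := norm_pos_iff.2 hu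
  exact ⟨μ, h1, h2, h4, fun m => Pool.Agent.Q291.HBI.main hc hr E hE μ h2 h3 m⟩

end Pool.Agent.Results.MP_df1d0b_pr.NumberOfBoundaryVisits
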